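import Pool.Agent.Q275.GQ.Stm

/-!
Lemma job SHIFT of project GQ (helper275), proved by helper130: shifts which change only one digit.
-/

set_option autoImplicit false

namespace Pool.Agent.Q130.GQ

open Pool.Agent.Q275.GQ

/-- The Lucas sequence. -/
def DD (P : Par) : ℕ → ℤ
  | 0 => 0
  | 1 => 1
  | (m + 2) => P.a1 * DD P (m + 1) - P.a0 * P.a2 * DD P m

lemma DD_two (P : Par) (m : ℕ) :
    DD P (m + 2) = P.a1 * DD P (m + 1) - P.a0 * P.a2 * DD P m := rfl

lemma DD_mod (P : Par) (m : ℕ) : ∃ q : ℤ, DD P (m + 1) = P.a1 ^ m + P.a0 * q := by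
  induction m with
  | zero => exact ⟨0, by simp [DD]⟩
  | succ m ih =>
    obtain ⟨q, hq⟩ := ih
    refine ⟨P.a1 * q - P.a2 * DD P m, ?_⟩
    rw [DD_two, hq]
    ring

lemma A_add (P : Par) (M : ℤ × ℤ) (u v w : ℤ) (h : P.a0 * w + P.a1 * v + P.a2 * u = 0) :
    A P (M + (u, v)) = A P M + (v, w) ∧ dig P (M + (u, v)) = dig P M := by
  have h1 : P.a1 * (M + (u, v)).2 + P.a2 * (M + (u, v)).1 =
      P.a1 * M.2 + P.a2 * M.1 + P.a0 * (-w) := by
    simp only [Prod.fst_add, Prod.snd_add]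
    linarith
  constructor
  · refine Prod.ext (by simp [A]) ?_
    show -((P.a1 * (M + (u, v)).2 + P.a2 * (M + (u, v)).1) / P.a0) = _
    rw [h1, Int.add_mul_ediv_left _ _ P.a0_pos.ne']
    simp only [A, Prod.snd_add]
    ring
  · show (P.a1 * (M + (u, v)).2 + P.a2 * (M + (u, v)).1) % P.a0 = _
    rw [h1, Int.add_mul_emod_self_left]
    rfl

lemma iter_seq (P : Par) (k : ℕ) (n : ℕ → ℤ)
    (hn : ∀ i < k, P.a0 * n (i + 2) + P.a1 * n (i + 1) + P.a2 * n i = 0) (M : ℤ × ℤ) :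
    ∀ i ≤ k, (A P)^[i] (M + (n 0, n 1)) = (A P)^[i] M + (n i, n (i + 1)) := by
  intro i
  induction i with
  | zero => intro _; rfl
  | succ i ih =>
    intro hi
    rw [Function.iterate_succ_apply', Function.iterate_succ_apply', ih (by omega)]
    exact (A_add P _ _ _ _ (hn i (by omega))).1

theorem shift : S_SHIFT := by
  intro P k
  -- the greatest common divisor
  obtain ⟨q, hq⟩ := DD_mod P (k + 1)
  have hcop : IsCoprime ((Int.gcd (DD P (k + 2)) (P.a2 ^ (k + 1)) : ℕ) : ℤ) P.a0 := by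
    rw [Int.isCoprime_iff_gcd_eq_one]
    by_contra hne
    obtain ⟨p, hp, hpd⟩ := Nat.exists_prime_and_dvd hne
    have hpz : Prime (p : ℤ) := Nat.prime_iff_prime_int.mp hp
    have h1 : (p : ℤ) ∣ ((Int.gcd (DD P (k + 2)) (P.a2 ^ (k + 1)) : ℕ) : ℤ) :=
      (Int.natCast_dvd_natCast.mpr hpd).trans (Int.gcd_dvd_left _ _)
    have h2 : (p : ℤ) ∣ P.a0 :=
      (Int.natCast_dvd_natCast.mpr hpd).trans (Int.gcd_dvd_right _ _)
    have h3 : (p : ℤ) ∣ DD P (k + 2) := h1.trans (Int.gcd_dvd_left _ _)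
    have h4 : (p : ℤ) ∣ P.a2 := hpz.dvd_of_dvd_pow (h1.trans (Int.gcd_dvd_right _ _))
    have h5 : (p : ℤ) ∣ P.a1 := by
      refine hpz.dvd_of_dvd_pow (n := k + 1) ?_
      have h6 : (p : ℤ) ∣ DD P (k + 2) - P.a0 * q := dvd_sub h3 (h2.mul_right _)
      have h7 : DD P (k + 2) - P.a0 * q = P.a1 ^ (k + 1) := by rw [hq]; ring
      rw [h7] at h6
      exact h6
    exact P.cop p hp h2 h5 h4
  obtain ⟨u, v, huv⟩ := hcop
  have hg := Int.gcd_eq_gcd_ab (DD P (k + 2)) (P.a2 ^ (k + 1))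
  set x := Int.gcdA (DD P (k + 2)) (P.a2 ^ (k + 1)) with hx
  set y := Int.gcdB (DD P (k + 2)) (P.a2 ^ (k + 1)) with hy
  rw [hg] at huv
  -- the sequence
  let n : ℕ → ℤ := fun i => u * x * ((-P.a0) ^ (k + 1 - i) * DD P i) -
    u * y * ((-1) ^ (k + 1 - i) * P.a2 ^ i * DD P (k + 1 - i))
  have hn : ∀ i < k, P.a0 * n (i + 2) + P.a1 * n (i + 1) + P.a2 * n i = 0 := by
    intro i hi
    obtain ⟨r, rfl⟩ : ∃ r, k = i + 1 + r := ⟨k - (i + 1), by omega⟩
    have e1 : i + 1 + r + 1 - (i + 2) = r := by omega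
    have e2 : i + 1 + r + 1 - (i + 1) = r + 1 := by omega
    have e3 : i + 1 + r + 1 - i = r + 2 := by omega
    simp only [n, e1, e2, e3, DD_two]
    ring
  have hpsi : P.a2 * n k + P.a1 * n (k + 1) = 1 - v * P.a0 := by
    have e1 : k + 1 - k = 1 := by omega
    have e2 : k + 1 - (k + 1) = 0 := by omega
    have e3 : DD P 1 = 1 := rfl
    have e4 : DD P 0 = 0 := rfl
    simp only [n, e1, e2, e3, e4]
    have e5 := DD_two P k
    rw [e5] at huv
    linear_combination huv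
  refine ⟨(n 0, n 1), fun M => ⟨fun i hi => ?_, ?_⟩⟩
  · rw [iter_seq P k n hn M i hi.le]
    exact (A_add P _ _ _ _ (hn i hi)).2
  · rw [iter_seq P k n hn M k le_rfl]
    set M' := (A P)^[k] M
    show (P.a1 * (M' + (n k, n (k + 1))).2 + P.a2 * (M' + (n k, n (k + 1))).1) % P.a0 =
      ((P.a1 * M'.2 + P.a2 * M'.1) % P.a0 + 1) % P.a0
    have h1 : P.a1 * (M' + (n k, n (k + 1))).2 + P.a2 * (M' + (n k, n (k + 1))).1 =
        (P.a1 * M'.2 + P.a2 * M'.1 + 1) + P.a0 * (-v) := by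
      simp only [Prod.fst_add, Prod.snd_add]
      linear_combination hpsi
    rw [h1, Int.add_mul_emod_self_left, Int.emod_add_emod]

end Pool.Agent.Q130.GQ
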